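import Pool.Agent.helper64.OT.SpecG
import Pool.Agent.helper85.OT.GNA

set_option autoImplicit false

/-!
# Project OT, second theorem (MP_f6e9a2_nt): row GNT
-/

namespace Pool.Agent.OG

open Finset Pool.Agent.OT Pool.Agent.SPI Pool.Agent.helper85.PG
open scoped Pointwise

/-- the first factor -/
theorem GNT_P {p : ℕ} [NeZero p] (S J : Finset (ZMod p)) (c : ZMod p → ℂ) :
    ((∑ y ∈ J, ‖∑ s ∈ S, c s * ps (-(s * y))‖ ^ 2 : ℝ) : ℂ) =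
      ∑ s ∈ S, ∑ s' ∈ S, c s * (starRingEnd ℂ) (c s') * WY J (s' - s) := by
  rw [Complex.ofReal_sum]
  have h1 : ∀ y ∈ J, ((‖∑ s ∈ S, c s * ps (-(s * y))‖ ^ 2 : ℝ) : ℂ) =
      ∑ s ∈ S, ∑ s' ∈ S, c s * (starRingEnd ℂ) (c s') * ps ((s' - s) * y) := by
    intro y _
    rw [GNA_sq]
    refine Finset.sum_congr rfl fun s _ => Finset.sum_congr rfl fun s' _ => ?_
    rw [map_mul, GNA_ps_conj, neg_neg]
    have e : (s' - s) * y = -(s * y) + s' * y := by ring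
    rw [e, GNA_ps_add]
    ring
  rw [Finset.sum_congr rfl h1, Finset.sum_comm]
  refine Finset.sum_congr rfl fun s _ => ?_
  rw [Finset.sum_comm]
  refine Finset.sum_congr rfl fun s' _ => ?_
  unfold WY
  rw [Finset.mul_sum]

/-- the second factor -/
theorem GNT_Q {p : ℕ} [NeZero p] (J : Finset (ZMod p)) (C : ZMod p → Finset (ZMod p)) (γ : ZMod p → ℂ) (t : ZMod p) :
    ((∑ j ∈ J, ‖Pool.Agent.SPI.ft (C j) γ t‖ ^ 2 : ℝ) : ℂ) = ∑ j ∈ J, ∑ b ∈ C j, ∑ b' ∈ C j,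
      γ b * (starRingEnd ℂ) (γ b') * ps (t * (b - b')) := by
  rw [Complex.ofReal_sum]
  refine Finset.sum_congr rfl fun j _ => ?_
  unfold Pool.Agent.SPI.ft
  rw [GNA_sq]
  refine Finset.sum_congr rfl fun b _ => Finset.sum_congr rfl fun b' _ => ?_
  have e1 : (ZMod.stdAddChar (t * b) : ℂ) = ps (t * b) := rfl
  have e2 : (ZMod.stdAddChar (t * b') : ℂ) = ps (t * b') := rfl
  rw [e1, e2, map_mul, GNA_ps_conj]
  have e : t * (b - b') = t * b + -(t * b') := by ring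
  rw [e, GNA_ps_add]
  ring

/-- the off-diagonal terms -/
theorem GNT_off (hW1 : W1_stmt) {p : ℕ} [Fact p.Prime] (χ : MulChar (ZMod p) ℂ) (hχ : χ ≠ 1) (s s' : ZMod p)
    (hs : s ≠ s') (w w' : ℂ) (hw : ‖w‖ ≤ 1) (hw' : ‖w'‖ ≤ 1) (J : Finset (ZMod p)) (C : ZMod p → Finset (ZMod p)) (γ : ZMod p → ℂ)
    (hγ : ∀ b, ‖γ b‖ ≤ 1) :
    ‖∑ t : ZMod p, (w * χ⁻¹ (t - s)) * (starRingEnd ℂ) (w' * χ⁻¹ (t - s')) *
      ((∑ j ∈ J, ‖Pool.Agent.SPI.ft (C j) γ t‖ ^ 2 : ℝ) : ℂ)‖ ≤ 4 * Real.sqrt p * ∑ j ∈ J, ((C j).card : ℝ) ^ 2 := by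
  have h1 : ∑ t : ZMod p, (w * χ⁻¹ (t - s)) * (starRingEnd ℂ) (w' * χ⁻¹ (t - s')) *
      ((∑ j ∈ J, ‖Pool.Agent.SPI.ft (C j) γ t‖ ^ 2 : ℝ) : ℂ) =
      ∑ j ∈ J, ∑ b ∈ C j, ∑ b' ∈ C j, (w * (starRingEnd ℂ) w' * (γ b * (starRingEnd ℂ) (γ b'))) *
        ∑ t : ZMod p, χ⁻¹ (t - s) * (starRingEnd ℂ) (χ⁻¹ (t - s')) * ps (t * (b - b')) := by
    have h2 : ∀ t : ZMod p, (w * χ⁻¹ (t - s)) * (starRingEnd ℂ) (w' * χ⁻¹ (t - s')) *
        ((∑ j ∈ J, ‖Pool.Agent.SPI.ft (C j) γ t‖ ^ 2 : ℝ) : ℂ) =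
        ∑ j ∈ J, ∑ b ∈ C j, ∑ b' ∈ C j, (w * (starRingEnd ℂ) w' * (γ b * (starRingEnd ℂ) (γ b'))) *
        (χ⁻¹ (t - s) * (starRingEnd ℂ) (χ⁻¹ (t - s')) * ps (t * (b - b'))) := by
      intro t
      rw [GNT_Q, Finset.mul_sum]
      refine Finset.sum_congr rfl fun j _ => ?_
      rw [Finset.mul_sum]
      refine Finset.sum_congr rfl fun b _ => ?_
      rw [Finset.mul_sum]
      refine Finset.sum_congr rfl fun b' _ => ?_
      rw [map_mul]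
      ring
    rw [Finset.sum_congr rfl fun t _ => h2 t, Finset.sum_comm]
    refine Finset.sum_congr rfl fun j _ => ?_
    rw [Finset.sum_comm]
    refine Finset.sum_congr rfl fun b _ => ?_
    rw [Finset.sum_comm]
    refine Finset.sum_congr rfl fun b' _ => ?_
    rw [Finset.mul_sum]
  rw [h1]
  have h3 : ∀ b b' : ZMod p, ‖(w * (starRingEnd ℂ) w' * (γ b * (starRingEnd ℂ) (γ b'))) *
      ∑ t : ZMod p, χ⁻¹ (t - s) * (starRingEnd ℂ) (χ⁻¹ (t - s')) * ps (t * (b - b'))‖ ≤ 4 * Real.sqrt p := by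
    intro b b'
    rw [norm_mul]
    have h4 := GNA_W1 hW1 χ hχ s s' (b - b') hs
    have h5 : ‖w * (starRingEnd ℂ) w' * (γ b * (starRingEnd ℂ) (γ b'))‖ ≤ 1 := by
      rw [norm_mul, norm_mul, norm_mul, RCLike.norm_conj, RCLike.norm_conj]
      exact mul_le_one₀ (mul_le_one₀ hw (norm_nonneg _) hw') (mul_nonneg (norm_nonneg _) (norm_nonneg _))
        (mul_le_one₀ (hγ b) (norm_nonneg _) (hγ b'))
    calc _ ≤ 1 * (4 * Real.sqrt p) := mul_le_mul h5 h4 (norm_nonneg _) (by norm_num)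
      _ = _ := one_mul _
  calc _ ≤ ∑ j ∈ J, ∑ b ∈ C j, ∑ b' ∈ C j, 4 * Real.sqrt p := by
        refine (norm_sum_le _ _).trans (Finset.sum_le_sum fun j _ => ?_)
        refine (norm_sum_le _ _).trans (Finset.sum_le_sum fun b _ => ?_)
        exact (norm_sum_le _ _).trans (Finset.sum_le_sum fun b' _ => h3 b b')
    _ = 4 * Real.sqrt p * ∑ j ∈ J, ((C j).card : ℝ) ^ 2 := by
        rw [Finset.mul_sum]
        refine Finset.sum_congr rfl fun j _ => ?_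
        rw [Finset.sum_const, Finset.sum_const, nsmul_eq_mul, nsmul_eq_mul]
        ring

/-- the combination -/
theorem GNT_comb {p : ℕ} [NeZero p] (T : Finset (ZMod p)) (c : ZMod p → ZMod p → ℂ) (P Q : ZMod p → ℝ) (W : ZMod p → ZMod p → ℂ) (K E R : ℝ)
    (hP0 : ∀ t, 0 ≤ P t) (hQ0 : ∀ t, 0 ≤ Q t) (hK : 0 ≤ K)
    (hP : ∀ t, ((P t : ℝ) : ℂ) = ∑ s ∈ T, ∑ s' ∈ T, c s t * (starRingEnd ℂ) (c s' t) * W s s')
    (hin : ∀ s ∈ T, ∀ s' ∈ T, ‖∑ t : ZMod p, c s t * (starRingEnd ℂ) (c s' t) * ((Q t : ℝ) : ℂ)‖ ≤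
      (if s = s' then K else 0) + E) (hW : ∀ s, ‖W s s‖ ≤ R) :
    ∑ t, P t * Q t ≤ T.card * R * K + E * ∑ s ∈ T, ∑ s' ∈ T, ‖W s s'‖ := by
  have hZ : ((∑ t, P t * Q t : ℝ) : ℂ) = ∑ s ∈ T, ∑ s' ∈ T,
      W s s' * ∑ t : ZMod p, c s t * (starRingEnd ℂ) (c s' t) * ((Q t : ℝ) : ℂ) := by
    rw [Complex.ofReal_sum]
    have h1 : ∀ t : ZMod p, ((P t * Q t : ℝ) : ℂ) = ∑ s ∈ T, ∑ s' ∈ T,
        W s s' * (c s t * (starRingEnd ℂ) (c s' t) * ((Q t : ℝ) : ℂ)) := by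
      intro t
      rw [Complex.ofReal_mul, hP t, Finset.sum_mul]
      refine Finset.sum_congr rfl fun s _ => ?_
      rw [Finset.sum_mul]
      refine Finset.sum_congr rfl fun s' _ => ?_
      ring
    rw [Finset.sum_congr rfl fun t _ => h1 t, Finset.sum_comm]
    refine Finset.sum_congr rfl fun s _ => ?_
    rw [Finset.sum_comm]
    refine Finset.sum_congr rfl fun s' _ => ?_
    rw [Finset.mul_sum]
  have hZ0 : 0 ≤ ∑ t, P t * Q t := Finset.sum_nonneg fun t _ => mul_nonneg (hP0 t) (hQ0 t)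
  have hZn : ∑ t, P t * Q t ≤ ∑ s ∈ T, ∑ s' ∈ T, ‖W s s'‖ * ((if s = s' then K else 0) + E) := by
    have h1 : ∑ t, P t * Q t = ‖((∑ t, P t * Q t : ℝ) : ℂ)‖ := by
      rw [Complex.norm_real, Real.norm_eq_abs, abs_of_nonneg hZ0]
    rw [h1, hZ]
    refine (norm_sum_le _ _).trans (Finset.sum_le_sum fun s hs => ?_)
    refine (norm_sum_le _ _).trans (Finset.sum_le_sum fun s' hs' => ?_)
    rw [norm_mul]
    exact mul_le_mul_of_nonneg_left (hin s hs s' hs') (norm_nonneg _)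
  refine hZn.trans ?_
  have h1 : ∑ s ∈ T, ∑ s' ∈ T, ‖W s s'‖ * ((if s = s' then K else 0) + E) =
      (∑ s ∈ T, ‖W s s‖ * K) + ∑ s ∈ T, ∑ s' ∈ T, ‖W s s'‖ * E := by
    rw [← Finset.sum_add_distrib]
    refine Finset.sum_congr rfl fun s hs => ?_
    have h2 : ∀ s' : ZMod p, ‖W s s'‖ * ((if s = s' then K else 0) + E) =
        (if s = s' then ‖W s s‖ * K else 0) + ‖W s s'‖ * E := by
      intro s'
      by_cases h : s = s'
      · rw [if_pos h, if_pos h, h]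
        ring
      · rw [if_neg h, if_neg h]
        ring
    rw [Finset.sum_congr rfl fun s' _ => h2 s', Finset.sum_add_distrib, Finset.sum_ite_eq, if_pos hs]
  rw [h1]
  refine add_le_add ?_ (le_of_eq ?_)
  · calc ∑ s ∈ T, ‖W s s‖ * K ≤ ∑ s ∈ T, R * K :=
          Finset.sum_le_sum fun s _ => mul_le_mul_of_nonneg_right (hW s) hK
      _ = T.card * R * K := by
          rw [Finset.sum_const, nsmul_eq_mul]
          ring
  · simp only [← Finset.sum_mul]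
    ring

/-- Plancherel -/
theorem GNT_pln (hPLN : Pool.Agent.SPI.PLN_stmt) {p : ℕ} [Fact p.Prime] (J : Finset (ZMod p)) (cl : ZMod p → ZMod p)
    (B : Finset (ZMod p)) (γ : ZMod p → ℂ) (hγ : ∀ b, ‖γ b‖ ≤ 1) (hJ : ∀ b ∈ B, cl b ∈ J) :
    ∑ t : ZMod p, ∑ y ∈ J, ‖Pool.Agent.SPI.ft (BY B cl y) γ t‖ ^ 2 ≤ p * B.card := by
  rw [Finset.sum_comm]
  have h1 : ∀ y ∈ J, ∑ t : ZMod p, ‖Pool.Agent.SPI.ft (BY B cl y) γ t‖ ^ 2 ≤ p * ((BY B cl y).card : ℝ) := by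
    intro y _
    rw [hPLN p (BY B cl y) γ]
    refine mul_le_mul_of_nonneg_left ?_ (Nat.cast_nonneg _)
    calc ∑ a ∈ BY B cl y, ‖γ a‖ ^ 2 ≤ ∑ a ∈ BY B cl y, (1 : ℝ) :=
          Finset.sum_le_sum fun a _ => pow_le_one₀ (norm_nonneg _) (hγ a)
      _ = (BY B cl y).card := by simp
  refine (Finset.sum_le_sum h1).trans ?_
  rw [← Finset.mul_sum]
  refine mul_le_mul_of_nonneg_left (le_of_eq ?_) (Nat.cast_nonneg _)
  have h2 : B.card = ∑ y ∈ J, (BY B cl y).card :=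
    Finset.card_eq_sum_card_fiberwise (f := cl) (t := J) fun b hb => hJ b hb
  rw [h2]
  push_cast
  rfl

theorem GNT (hW1 : W1_stmt) (hPLN : Pool.Agent.SPI.PLN_stmt) : GNT_stmt := by
  classical
  intro p hp χ S J cl B γ hχ hγ hJ
  have hcn : ∀ (s t : ZMod p), ‖χ⁻¹ (t - s)‖ ≤ 1 := fun s t => DirichletCharacter.norm_le_one χ⁻¹ _
  have hQ0 : ∀ t : ZMod p, 0 ≤ ∑ y ∈ J, ‖Pool.Agent.SPI.ft (BY B cl y) γ t‖ ^ 2 :=
    fun t => Finset.sum_nonneg fun j _ => sq_nonneg _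
  have hD0 : 0 ≤ ∑ y ∈ J, ((BY B cl y).card : ℝ) ^ 2 := Finset.sum_nonneg fun j _ => sq_nonneg _
  have hr : 0 ≤ 4 * Real.sqrt p * ∑ y ∈ J, ((BY B cl y).card : ℝ) ^ 2 :=
    mul_nonneg (mul_nonneg (by norm_num) (Real.sqrt_nonneg _)) hD0
  have hK : 0 ≤ (p : ℝ) * B.card := mul_nonneg (Nat.cast_nonneg _) (Nat.cast_nonneg _)
  have hA : ∀ t : ZMod p, ‖GT χ S J cl B γ t‖ ^ 2 ≤
      (∑ y ∈ J, ‖∑ s ∈ S, χ⁻¹ (t - s) * ps (-(s * y))‖ ^ 2) *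
        ∑ y ∈ J, ‖Pool.Agent.SPI.ft (BY B cl y) γ t‖ ^ 2 := by
    intro t
    exact GNA_cs J _ _
  have hin : ∀ s ∈ S, ∀ s' ∈ S, ‖∑ t : ZMod p, χ⁻¹ (t - s) *
      (starRingEnd ℂ) (χ⁻¹ (t - s')) *
      ((∑ y ∈ J, ‖Pool.Agent.SPI.ft (BY B cl y) γ t‖ ^ 2 : ℝ) : ℂ)‖ ≤
      (if s = s' then (p : ℝ) * B.card else 0) +
        4 * Real.sqrt p * ∑ y ∈ J, ((BY B cl y).card : ℝ) ^ 2 := by
    intro s hs s' hs'
    by_cases h : s = s'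
    · rw [if_pos h]
      refine le_add_of_le_of_nonneg ?_ hr
      refine le_trans ?_ (GNT_pln hPLN J cl B γ hγ hJ)
      refine (norm_sum_le _ _).trans (Finset.sum_le_sum fun t _ => ?_)
      rw [norm_mul, norm_mul, RCLike.norm_conj, Complex.norm_real, Real.norm_eq_abs, abs_of_nonneg (hQ0 t)]
      exact mul_le_of_le_one_left (hQ0 t) (mul_le_one₀ (hcn s t) (norm_nonneg _) (hcn s' t))
    · rw [if_neg h, zero_add]
      have h1 := GNT_off hW1 χ hχ s s' h 1 1 (by simp) (by simp) J (BY B cl) γ hγ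
      simpa only [one_mul] using h1
  have hW0 : ∀ s : ZMod p, ‖WY J (s - s)‖ ≤ (J.card : ℝ) := by
    intro s
    unfold WY
    refine (norm_sum_le _ _).trans ?_
    simp only [GNA_ps_norm, Finset.sum_const, nsmul_eq_mul, mul_one]
    exact le_rfl
  have hfin := GNT_comb S (fun s t => χ⁻¹ (t - s))
    (fun t => ∑ y ∈ J, ‖∑ s ∈ S, χ⁻¹ (t - s) * ps (-(s * y))‖ ^ 2)
    (fun t => ∑ y ∈ J, ‖Pool.Agent.SPI.ft (BY B cl y) γ t‖ ^ 2)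
    (fun s s' => WY J (s' - s))
    ((p : ℝ) * B.card) (4 * Real.sqrt p * ∑ y ∈ J, ((BY B cl y).card : ℝ) ^ 2) (J.card : ℝ)
    (fun t => Finset.sum_nonneg fun j _ => sq_nonneg _) hQ0 hK
    (fun t => GNT_P S J fun s => χ⁻¹ (t - s)) hin hW0
  calc ∑ t : ZMod p, ‖GT χ S J cl B γ t‖ ^ 2 ≤ ∑ t : ZMod p,
        (∑ y ∈ J, ‖∑ s ∈ S, χ⁻¹ (t - s) * ps (-(s * y))‖ ^ 2) *
        ∑ y ∈ J, ‖Pool.Agent.SPI.ft (BY B cl y) γ t‖ ^ 2 := Finset.sum_le_sum fun t _ => hA t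
    _ ≤ _ := hfin
    _ = _ := by ring

end Pool.Agent.OG
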