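import Pool.Agent.helper64.OT.SpecD

set_option autoImplicit false

/-!
# OT (MP_f6e9a2_nt): EXP
-/

namespace Pool.Agent.OT

open Finset

theorem EXP_congr {f g : ℕ → ℂ} {a : ℂ} (h : HasSum f a) (hfg : ∀ k, f k = g k) : HasSum g a := by
  rwa [funext hfg] at h

/-- the exponential series of one term -/
theorem EXP_one (p : ℕ) [Fact p.Prime] (N T : ℕ) (hN : 0 < N) (hT : 0 < T) (s : ℕ) (b : ZMod p) (K : ℂ) :
    HasSum (fun k : ℕ => (-(2 * Real.pi * T * N / p : ℝ) * Complex.I) ^ k / (k.factorial : ℂ) *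
      (((((s : ℝ) / T) ^ k : ℝ) : ℂ) * ((((b.val % N : ℕ) : ℝ) / N : ℝ) : ℂ) ^ k * K))
      ((ZMod.stdAddChar (-((s : ZMod p) * ((b.val % N : ℕ) : ZMod p))) : ℂ) * K) := by
  have hN0 : (N : ℂ) ≠ 0 := by exact_mod_cast hN.ne'
  have hT0 : (T : ℂ) ≠ 0 := by exact_mod_cast hT.ne'
  have hp0 : (p : ℂ) ≠ 0 := by exact_mod_cast (Fact.out : p.Prime).ne_zero
  set z : ℂ := 2 * Real.pi * Complex.I * ((-((s * (b.val % N) : ℕ) : ℤ) : ℤ) : ℂ) / p with hz
  have h1 : (ZMod.stdAddChar (-((s : ZMod p) * ((b.val % N : ℕ) : ZMod p))) : ℂ) = Complex.exp z := by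
    have e1 : (-((s : ZMod p) * ((b.val % N : ℕ) : ZMod p))) = ((-((s * (b.val % N) : ℕ) : ℤ) : ℤ) : ZMod p) := by
      rw [Int.cast_neg, Int.cast_natCast, Nat.cast_mul]
    rw [e1, ZMod.stdAddChar_coe]
  have h2 : HasSum (fun k : ℕ => z ^ k / (k.factorial : ℂ)) (Complex.exp z) := by
    rw [Complex.exp_eq_exp_ℂ]
    exact NormedSpace.expSeries_div_hasSum_exp z
  rw [h1]
  refine EXP_congr (h2.mul_right K) fun k => ?_
  have h3 : z = (-((2 * Real.pi * T * N / p : ℝ) : ℂ) * Complex.I) * ((((s : ℝ) / T : ℝ) : ℂ) *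
      ((((b.val % N : ℕ) : ℝ) / N : ℝ) : ℂ)) := by
    rw [hz]
    generalize b.val % N = m
    push_cast
    field_simp
  rw [h3, mul_pow, mul_pow]
  push_cast
  ring

theorem EXP : EXP_stmt := by
  classical
  intro p _ χ N T B β t hN hT
  have hterm : ∀ j ∈ cells N B, ∀ s ∈ range T, ∀ b ∈ cell N B j,
      HasSum (fun k : ℕ => (-(2 * Real.pi * T * N / p : ℝ) * Complex.I) ^ k / (k.factorial : ℂ) *
        (((((s : ℝ) / T) ^ k : ℝ) : ℂ) * ((((b.val % N : ℕ) : ℝ) / N : ℝ) : ℂ) ^ k *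
          (χ⁻¹ (t - (s : ZMod p)) * ps (-((s : ZMod p) * ((j : ZMod p) * (N : ZMod p)))) *
            (β b * (ZMod.stdAddChar (t * b) : ℂ)))))
        (χ⁻¹ (t - (s : ZMod p)) * (β b * (ZMod.stdAddChar ((t - (s : ZMod p)) * b) : ℂ))) := by
    intro j _ s _ b hb
    have h1 := EXP_one p N T hN hT s b (χ⁻¹ (t - (s : ZMod p)) * ps (-((s : ZMod p) * ((j : ZMod p) * (N : ZMod p)))) *
            (β b * (ZMod.stdAddChar (t * b) : ℂ)))
    have h2 : (ZMod.stdAddChar (-((s : ZMod p) * ((b.val % N : ℕ) : ZMod p))) : ℂ) *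
        (χ⁻¹ (t - (s : ZMod p)) * ps (-((s : ZMod p) * ((j : ZMod p) * (N : ZMod p)))) *
            (β b * (ZMod.stdAddChar (t * b) : ℂ))) =
        χ⁻¹ (t - (s : ZMod p)) * (β b * (ZMod.stdAddChar ((t - (s : ZMod p)) * b) : ℂ)) := by
      have hj : b.val / N = j := (Finset.mem_filter.mp hb).2
      have e1 : b = (j : ZMod p) * (N : ZMod p) + ((b.val % N : ℕ) : ZMod p) := by
        have e2 : b.val = j * N + b.val % N := by
          rw [← hj]
          exact (Nat.div_add_mod' _ _).symm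
        have e3 := congrArg (fun n : ℕ => (n : ZMod p)) e2
        simp only [ZMod.natCast_val, ZMod.cast_id', id] at e3
        rw [Nat.cast_add, Nat.cast_mul] at e3
        exact e3
      have e4 : (t - (s : ZMod p)) * b = t * b + (-((s : ZMod p) * ((j : ZMod p) * (N : ZMod p))) +
          -((s : ZMod p) * ((b.val % N : ℕ) : ZMod p))) := by
        have e5 : (s : ZMod p) * b = (s : ZMod p) * ((j : ZMod p) * (N : ZMod p)) +
            (s : ZMod p) * ((b.val % N : ℕ) : ZMod p) := by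
          rw [← mul_add, ← e1]
        rw [sub_mul, e5]
        ring
      rw [e4, AddChar.map_add_eq_mul, AddChar.map_add_eq_mul, ps]
      ring
    rwa [h2] at h1
  have h1 := hasSum_sum fun j hj => hasSum_sum fun s hs => hasSum_sum fun b hb => hterm j hj s hs b hb
  have h2 : ∑ j ∈ cells N B, ∑ s ∈ range T, ∑ b ∈ cell N B j,
      χ⁻¹ (t - (s : ZMod p)) * (β b * (ZMod.stdAddChar ((t - (s : ZMod p)) * b) : ℂ)) =
      ∑ s ∈ range T, χ⁻¹ (t - (s : ZMod p)) * Pool.Agent.SPI.ft B β (t - (s : ZMod p)) := by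
    rw [Finset.sum_comm]
    refine Finset.sum_congr rfl fun s _ => ?_
    unfold Pool.Agent.SPI.ft
    rw [Finset.mul_sum]
    exact Finset.sum_fiberwise_of_maps_to (fun b hb => Finset.mem_image_of_mem _ hb) _
  rw [h2] at h1
  refine EXP_congr h1 fun k => ?_
  rw [GN, Finset.mul_sum]
  refine Finset.sum_congr rfl fun j _ => ?_
  unfold Pool.Agent.SPI.ft
  rw [Finset.sum_mul_sum, Finset.mul_sum]
  refine Finset.sum_congr rfl fun s _ => ?_
  rw [Finset.mul_sum]
  refine Finset.sum_congr rfl fun b _ => ?_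
  push_cast
  ring

end Pool.Agent.OT
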