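import Pool.Agent.helper64.OT.SpecD

set_option autoImplicit false

/-!
# OT (MP_f6e9a2_nt): PC2
-/

namespace Pool.Agent.OT

open Finset

theorem PC2_mm {p : ℕ} [Fact p.Prime] (N : ℕ) (B : Finset (ZMod p)) (c c' : ZMod p) :
    mm N B c c' = ∑ y ∈ range N, (if c + (y : ZMod p) ∈ B then 1 else 0) * (if c' + (y : ZMod p) ∈ B then 1 else 0) := by
  unfold mm
  rw [Finset.card_filter]
  refine Finset.sum_congr rfl fun y _ => ?_
  by_cases h1 : c + (y : ZMod p) ∈ B <;> by_cases h2 : c' + (y : ZMod p) ∈ B <;> simp [h1, h2]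

theorem PC2_shift {p : ℕ} [Fact p.Prime] (B : Finset (ZMod p)) (y : ZMod p) :
    ∑ c : ZMod p, (if c + y ∈ B then 1 else 0) = B.card := by
  rw [← Finset.card_filter]
  refine Finset.card_bij (fun c _ => c + y) (fun c hc => (Finset.mem_filter.mp hc).2)
    (fun a _ b _ h => add_right_cancel h) (fun b hb => ⟨b - y, ?_, ?_⟩)
  · rw [Finset.mem_filter]
    exact ⟨Finset.mem_univ _, by rwa [sub_add_cancel]⟩
  · rw [sub_add_cancel]

theorem PC2_one {p : ℕ} [Fact p.Prime] (N : ℕ) (B : Finset (ZMod p)) :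
    ∑ c : ZMod p, ∑ c' : ZMod p, mm N B c c' = N * B.card ^ 2 := by
  have h1 : ∀ c c' : ZMod p, mm N B c c' =
      ∑ y ∈ range N, (if c + (y : ZMod p) ∈ B then 1 else 0) * (if c' + (y : ZMod p) ∈ B then 1 else 0) := PC2_mm N B
  have h2 : ∑ c : ZMod p, ∑ c' : ZMod p, mm N B c c' =
      ∑ y ∈ range N, (∑ c : ZMod p, (if c + (y : ZMod p) ∈ B then 1 else 0)) *
        (∑ c' : ZMod p, (if c' + (y : ZMod p) ∈ B then 1 else 0)) := by
    simp only [h1]
    have e1 : ∀ c : ZMod p, ∑ c' : ZMod p, ∑ y ∈ range N, (if c + (y : ZMod p) ∈ B then 1 else 0) *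
        (if c' + (y : ZMod p) ∈ B then 1 else 0) = ∑ y ∈ range N, (if c + (y : ZMod p) ∈ B then 1 else 0) *
        ∑ c' : ZMod p, (if c' + (y : ZMod p) ∈ B then 1 else 0) := by
      intro c
      rw [Finset.sum_comm]
      exact Finset.sum_congr rfl fun y _ => (Finset.mul_sum _ _ _).symm
    rw [Finset.sum_congr rfl fun c _ => e1 c, Finset.sum_comm]
    exact Finset.sum_congr rfl fun y _ => (Finset.sum_mul _ _ _).symm
  rw [h2, Finset.sum_congr rfl fun y _ => by rw [PC2_shift]]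
  rw [Finset.sum_const, Finset.card_range, smul_eq_mul]
  ring

/-- the difference of two numbers below `N ≤ p` -/
theorem PC2_abs {p : ℕ} [Fact p.Prime] (N y y' : ℕ) (hy : y < N) (hy' : y' < N) :
    (((y : ZMod p) - (y' : ZMod p)).valMinAbs).natAbs < N := by
  have h1 : ((y : ZMod p) - (y' : ZMod p)) = (((y : ℤ) - (y' : ℤ) : ℤ) : ZMod p) := by push_cast; ring
  have h2 : (((y : ZMod p) - (y' : ZMod p)).valMinAbs).natAbs ≤ ((y : ℤ) - (y' : ℤ)).natAbs := by
    refine ZMod.natAbs_min_of_le_div_two p _ _ ?_ (ZMod.natAbs_valMinAbs_le _)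
    rw [ZMod.coe_valMinAbs, h1]
  omega

theorem PC2 : PC2_stmt := by
  classical
  intro p _ N B hN hNp
  have h0 : ∑ c : ZMod p, ∑ c' : ZMod p, (mm N B c c' : ℝ) = N * (B.card : ℝ) ^ 2 := by
    exact_mod_cast PC2_one N B
  refine ⟨h0.le, ?_⟩
  -- the quadruples
  have h1 : ∑ c : ZMod p, ∑ c' : ZMod p, mm N B c c' ^ 2 ≤ N * EN N B := by
    set S : Finset ((ZMod p × ZMod p) × (ℕ × ℕ)) := ((univ ×ˢ univ) ×ˢ (range N ×ˢ range N)).filter fun z =>
      (z.1.1 + (z.2.1 : ZMod p) ∈ B ∧ z.1.2 + (z.2.1 : ZMod p) ∈ B) ∧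
      (z.1.1 + (z.2.2 : ZMod p) ∈ B ∧ z.1.2 + (z.2.2 : ZMod p) ∈ B) with hS
    have e1 : ∑ c : ZMod p, ∑ c' : ZMod p, mm N B c c' ^ 2 = S.card := by
      rw [hS, Finset.card_filter, Finset.sum_product, Finset.sum_product]
      refine Finset.sum_congr rfl fun c _ => Finset.sum_congr rfl fun c' _ => ?_
      rw [sq, mm, Finset.card_filter, Finset.sum_mul_sum, Finset.sum_product]
      refine Finset.sum_congr rfl fun y _ => Finset.sum_congr rfl fun y' _ => ?_
      by_cases a1 : c + (y : ZMod p) ∈ B ∧ c' + (y : ZMod p) ∈ B <;>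
        by_cases a2 : c + (y' : ZMod p) ∈ B ∧ c' + (y' : ZMod p) ∈ B <;> simp [a1, a2]
    rw [e1]
    unfold EN
    refine Finset.card_le_mul_card_image_of_maps_to (s := S)
      (f := fun z => ((z.1.1 + (z.2.1 : ZMod p), z.1.2 + (z.2.1 : ZMod p)), (z.1.1 + (z.2.2 : ZMod p), z.1.2 + (z.2.2 : ZMod p))))
      (fun z hz => ?_) N (fun w _ => ?_)
    · rw [hS, Finset.mem_filter, Finset.mem_product, Finset.mem_product, Finset.mem_product, Finset.mem_range,
        Finset.mem_range] at hz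
      rw [Finset.mem_filter, Finset.mem_product, Finset.mem_product, Finset.mem_product]
      refine ⟨⟨⟨hz.2.1.1, hz.2.1.2⟩, hz.2.2.1, hz.2.2.2⟩, by ring, ?_⟩
      have e2 : z.1.1 + (z.2.1 : ZMod p) - (z.1.1 + (z.2.2 : ZMod p)) = (z.2.1 : ZMod p) - (z.2.2 : ZMod p) := by ring
      rw [e2]
      exact PC2_abs N _ _ hz.1.2.1 hz.1.2.2
    · -- the fibre injects into `range N` by `y`
      have e3 : (S.filter fun z => ((z.1.1 + (z.2.1 : ZMod p), z.1.2 + (z.2.1 : ZMod p)),
          (z.1.1 + (z.2.2 : ZMod p), z.1.2 + (z.2.2 : ZMod p))) = w).card ≤ (range N).card := by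
        refine Finset.card_le_card_of_injOn (fun z => z.2.1) (fun z hz => ?_) (fun z hz z' hz' h => ?_)
        · have hz := Finset.mem_coe.mp hz
          rw [Finset.mem_filter, hS, Finset.mem_filter, Finset.mem_product, Finset.mem_product] at hz
          exact Finset.mem_coe.mpr (Finset.mem_product.mp hz.1.1.2).1
        · have hz := Finset.mem_coe.mp hz
          have hz' := Finset.mem_coe.mp hz'
          rw [Finset.mem_filter, hS, Finset.mem_filter, Finset.mem_product, Finset.mem_product,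
            Finset.mem_product, Finset.mem_range, Finset.mem_range] at hz hz'
          obtain ⟨⟨⟨_, hy1, hy2⟩, _⟩, hw⟩ := hz
          obtain ⟨⟨⟨_, hy1', hy2'⟩, _⟩, hw'⟩ := hz'
          have h : z.2.1 = z'.2.1 := h
          have hww := hw.trans hw'.symm
          simp only [Prod.mk.injEq] at hww
          obtain ⟨⟨f1, f2⟩, f3, f4⟩ := hww
          rw [h] at f1 f2
          have g1 := add_right_cancel f1
          have g2 := add_right_cancel f2
          rw [g1] at f3
          have g3 : (z.2.2 : ZMod p) = (z'.2.2 : ZMod p) := add_left_cancel f3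
          have g4 : z.2.2 = z'.2.2 := by
            have a1 := (ZMod.natCast_eq_natCast_iff' _ _ _).mp g3
            rwa [Nat.mod_eq_of_lt (by omega), Nat.mod_eq_of_lt (by omega)] at a1
          exact Prod.ext (Prod.ext g1 g2) (Prod.ext h g4)
      rwa [Finset.card_range] at e3
  exact_mod_cast h1

end Pool.Agent.OT
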