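import Pool.Agent.helper64.OT.SpecD

set_option autoImplicit false

/-!
# OT (MP_f6e9a2_nt): PGS
-/

namespace Pool.Agent.OT

open Finset

theorem PGS (hGSI : Pool.Agent.SPI.GSI_stmt) (hPLN : Pool.Agent.SPI.PLN_stmt) : PGS_stmt := by
  intro p _ χ T B β hχ hT
  obtain ⟨τ, hτ, hg⟩ := hGSI p χ hχ
  have hp0 : (0 : ℝ) < p := by exact_mod_cast (Fact.out : p.Prime).pos
  have hT0 : (0 : ℝ) < T := by exact_mod_cast hT
  set v : ZMod p → ℂ := fun t => ∑ s ∈ range T, χ⁻¹ (t - (s : ZMod p)) * Pool.Agent.SPI.ft B β (t - (s : ZMod p)) with hv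
  -- the sum `τ F(x)`
  have h1 : ∀ x : ZMod p, τ * FB χ B β x =
      ∑ t : ZMod p, χ⁻¹ t * Pool.Agent.SPI.ft B β t * (ZMod.stdAddChar (t * x) : ℂ) := by
    intro x
    unfold FB Pool.Agent.SPI.ft
    rw [Finset.mul_sum]
    have e1 : ∀ b ∈ B, τ * (β b * χ (x + b)) =
        ∑ t : ZMod p, χ⁻¹ t * (β b * (ZMod.stdAddChar (t * b) : ℂ)) * (ZMod.stdAddChar (t * x) : ℂ) := by
      intro b _
      rw [show τ * (β b * χ (x + b)) = β b * (τ * χ (x + b)) by ring, hg, Finset.mul_sum]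
      refine Finset.sum_congr rfl fun t _ => ?_
      rw [mul_add, AddChar.map_add_eq_mul]
      ring
    rw [Finset.sum_congr rfl e1, Finset.sum_comm]
    refine Finset.sum_congr rfl fun t _ => ?_
    rw [Finset.mul_sum, Finset.sum_mul]
  -- multiplied by the geometric sum
  have h2 : ∀ x : ZMod p, (∑ s ∈ range T, ps ((s : ZMod p) * x)) * (τ * FB χ B β x) =
      Pool.Agent.SPI.ft univ v x := by
    intro x
    rw [h1]
    have e1 : ∀ s ∈ range T, ps ((s : ZMod p) * x) *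
        (∑ t : ZMod p, χ⁻¹ t * Pool.Agent.SPI.ft B β t * (ZMod.stdAddChar (t * x) : ℂ)) =
        ∑ t : ZMod p, χ⁻¹ (t - (s : ZMod p)) * Pool.Agent.SPI.ft B β (t - (s : ZMod p)) *
          (ZMod.stdAddChar (x * t) : ℂ) := by
      intro s _
      rw [Finset.mul_sum]
      refine Fintype.sum_equiv (Equiv.addRight (s : ZMod p)) _ _ fun t => ?_
      rw [Equiv.coe_addRight, add_sub_cancel_right, ps]
      rw [show x * (t + (s : ZMod p)) = (s : ZMod p) * x + t * x by ring, AddChar.map_add_eq_mul]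
      ring
    rw [Finset.sum_mul, Finset.sum_congr rfl e1, Finset.sum_comm]
    unfold Pool.Agent.SPI.ft
    refine Finset.sum_congr rfl fun t _ => ?_
    rw [hv]
    simp only [Pool.Agent.SPI.ft]
    rw [Finset.sum_mul]
  have h3 : ∀ x : ZMod p, ‖∑ s ∈ range T, ps ((s : ZMod p) * x)‖ ^ 2 * (p * ‖FB χ B β x‖ ^ 2) =
      ‖Pool.Agent.SPI.ft univ v x‖ ^ 2 := by
    intro x
    rw [← h2 x, norm_mul, norm_mul, mul_pow, mul_pow, hτ, Real.sq_sqrt hp0.le]
  have h4 := hPLN p univ v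
  rw [← Finset.sum_congr rfl fun x _ => h3 x] at h4
  have h5 : ∑ x : ZMod p, ‖∑ s ∈ range T, ps ((s : ZMod p) * x)‖ ^ 2 * (p * ‖FB χ B β x‖ ^ 2) =
      p * ∑ x : ZMod p, ‖∑ s ∈ range T, ps ((s : ZMod p) * x)‖ ^ 2 * ‖FB χ B β x‖ ^ 2 := by
    rw [Finset.mul_sum]
    exact Finset.sum_congr rfl fun x _ => by ring
  rw [h5] at h4
  have h6 := mul_left_cancel₀ hp0.ne' h4
  rw [← h6, Finset.sum_div]
  refine Finset.sum_congr rfl fun x _ => ?_
  rw [psi]
  ring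

end Pool.Agent.OT
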